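import Mathlib
import Pool.Agent.W205.K5.Stm

/-!
# Two-point data give a system
-/

set_option autoImplicit false

namespace Pool.Agent.W834.K5

open Pool.Agent.W205.K5 Pool.Agent.W593.IR Finset
open Pool.Agent.W890.SF (Wt PU PG PP TP S_BAS)

section basics

variable {k : ℕ} {a b q : ℕ → ℝ}

lemma a_le (h : TD k a b q) {i : ℕ} (hi : i < k) : a i ≤ 1 / (k : ℝ) := by
  obtain ⟨h1, h2, h3, h4, h5⟩ := h i hi
  have := mul_nonneg h2.le h3
  linarith

lemma bq_le (h : TD k a b q) {i : ℕ} (hi : i < k) : b i * q i ≤ 1 / (k : ℝ) := by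
  obtain ⟨h1, h2, h3, h4, h5⟩ := h i hi
  linarith

lemma c_le (h : TD k a b q) {j : ℕ} (hj : j ≤ k) : 1 - ∑ i : Fin j, a i ≤ 1 := by
  have : 0 ≤ ∑ i : Fin j, a i := sum_nonneg fun i _ => (h i (by omega)).1
  linarith

lemma c_ge (h : TD k a b q) {j : ℕ} (hj : j ≤ k) : 1 - (j : ℝ) / k ≤ 1 - ∑ i : Fin j, a i := by
  have : ∑ i : Fin j, a i ≤ ∑ i : Fin j, 1 / (k : ℝ) :=
    sum_le_sum fun i _ => a_le h (by omega)
  have h2 : ∑ i : Fin j, 1 / (k : ℝ) = (j : ℝ) / k := by
    simp [div_eq_mul_inv]
  linarith

lemma slack (h : TD k a b q) {j : ℕ} (hj : j ≤ k) :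
    (1 - ∑ i : Fin j, a i) - ∑ i : Fin j, b i * q i = 1 - (j : ℝ) / k := by
  have h1 : ∑ i : Fin j, (a i + b i * q i) = ∑ i : Fin j, 1 / (k : ℝ) :=
    sum_congr rfl fun i _ => (h i (by omega)).2.2.2.2
  have h2 : ∑ i : Fin j, 1 / (k : ℝ) = (j : ℝ) / k := by
    simp [div_eq_mul_inv]
  rw [sum_add_distrib, h2] at h1
  linarith

lemma w_zero : Wn a b q 0 = 1 := by
  unfold Wn PP PU Wt
  simp

lemma g_zero : Gn a b q 0 = 1 := by
  unfold Gn PG Wt
  simp

end basics

theorem sys (hX : S_CHX) (hB : S_BAS) (hG : S_GW) : S_SYS := by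
  intro k hk a b q h
  have hk0 : (0 : ℝ) < k := by
    have : 0 < k := by omega
    exact_mod_cast this
  by_cases hc : 1 - ∑ i : Fin k, a i ≤ 0
  · -- the constant case
    right
    have h1 := c_ge h (le_refl k)
    have h2 : (1 : ℝ) - (k : ℝ) / k = 0 := by
      rw [div_self hk0.ne']; ring
    have hs0 : ∑ i : Fin k, (1 / (k : ℝ) - a i) = 0 := by
      rw [sum_sub_distrib]
      have h3 : ∑ i : Fin k, 1 / (k : ℝ) = 1 := by
        simp [hk0.ne']
      linarith
    have hai : ∀ i : Fin k, 1 / (k : ℝ) - a i = 0 := by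
      intro i
      have := (sum_eq_zero_iff_of_nonneg (s := (univ : Finset (Fin k)))
        (f := fun i : Fin k => 1 / (k : ℝ) - a i)
        (fun i _ => sub_nonneg.2 (a_le h i.2))).1 hs0 i (mem_univ i)
      exact this
    have hqi : ∀ i < k, q i = 0 := by
      intro i hi
      obtain ⟨g1, g2, g3, g4, g5⟩ := h i hi
      have h3 := hai ⟨i, hi⟩
      simp only at h3
      have h4 : b i * q i = 0 := by linarith
      rcases mul_eq_zero.1 h4 with h5 | h5
      · exact absurd h5 g2.ne'
      · exact h5
    constructor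
    · unfold Wn PP PU
      apply sum_eq_zero
      intro ω _
      rw [if_neg]
      have : 0 ≤ ∑ i ∈ ω, b (i : Fin k) := sum_nonneg fun i _ => (h i i.2).2.1.le
      linarith
    · intro j hj
      have hcj : 0 < 1 - ∑ i : Fin j, a i := by
        have := c_ge h hj.le
        have h3 : (j : ℝ) / k < 1 := by
          rw [div_lt_one hk0]; exact_mod_cast hj
        linarith
      unfold Wn PP PU
      rw [sum_eq_single (∅ : Finset (Fin j))]
      · rw [if_pos (by simpa using hcj)]
        unfold Wt
        rw [prod_empty, one_mul]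
        apply prod_eq_one
        intro i _
        have h6 : q (i : ℕ) = 0 := hqi i (by omega)
        simp only [h6, sub_zero]
      · intro ω _ hω
        obtain ⟨i, hi⟩ := nonempty_iff_ne_empty.2 hω
        have : Wt (fun i : Fin j => q i) univ ω = 0 := by
          unfold Wt
          rw [prod_eq_zero hi (hqi i (by omega)), zero_mul]
        rw [this]; simp
      · intro h3
        exact absurd (empty_mem_powerset _) h3
  · left
    push Not at hc
    have hcj : ∀ j ≤ k, 0 < 1 - ∑ i : Fin j, a i := by
      intro j hj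
      rcases hj.lt_or_eq with hj1 | hj1
      · have := c_ge h hj
        have h3 : (j : ℝ) / k < 1 := by
          rw [div_lt_one hk0]; exact_mod_cast hj1
        linarith
      · subst hj1; exact hc
    have bas : ∀ j ≤ k, 0 < Wn a b q j ∧ Wn a b q j ≤ 1 ∧
        Gn a b q j ≤ (1 - ∑ i : Fin j, a i) * Wn a b q j ∧
        1 - (j : ℝ) / k ≤ Gn a b q j ∧ 0 < Gn a b q j := by
      intro j hj
      have := hB (Fin j) (fun i => b i) (fun i => q i) (1 - ∑ i : Fin j, a i) univ (hcj j hj)
        (fun i _ => ⟨(h i (by omega)).2.1, (h i (by omega)).2.2.1, (h i (by omega)).2.2.2.1⟩)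
      rw [slack h hj] at this
      exact this
    have gw : ∀ j < k, Gn a b q j ≤ Gn a b q (j + 1) + 1 / (k : ℝ) * Wn a b q j := by
      intro j hj
      have htp : TP (j + 1) (1 / (k : ℝ)) (fun i : Fin (j + 1) => a i) (fun i => b i)
          (fun i => q i) :=
        { a0 := fun i => (h i (by omega)).1
          b0 := fun i => (h i (by omega)).2.1
          q0 := fun i => (h i (by omega)).2.2.1
          q1 := fun i => (h i (by omega)).2.2.2.1
          mean := fun i => (h i (by omega)).2.2.2.2 }
      exact hG j (1 / (k : ℝ)) (by positivity) _ _ _ htp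
    have hslk : ∀ r ≤ k, 1 - ((k - r : ℕ) : ℝ) / k = (r : ℝ) / k := by
      intro r hr
      rw [Nat.cast_sub hr]
      field_simp
      ring
    refine ⟨?_, ?_, ?_, ?_, ?_, ?_, ?_, ?_, ?_⟩
    · simp only [Nat.sub_self]; exact w_zero
    · simp only [Nat.sub_self]; rw [g_zero, mul_one]
    · intro r hr
      exact (bas (k - r) (by omega)).1
    · intro r hr
      exact (bas (k - r) (by omega)).2.1
    · intro r hr
      exact mul_pos hk0 (bas (k - r) (by omega)).2.2.2.2
    · intro r hr
      have h1 := gw (k - (r + 1)) (by omega)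
      have h2 : k - (r + 1) + 1 = k - r := by omega
      rw [h2] at h1
      have h3 := mul_le_mul_of_nonneg_left h1 hk0.le
      have h4 : (k : ℝ) * (Gn a b q (k - r) + 1 / (k : ℝ) * Wn a b q (k - (r + 1))) =
          k * Gn a b q (k - r) + Wn a b q (k - (r + 1)) := by
        field_simp
      rw [h4] at h3
      exact h3
    · intro r hr
      have h1 := (bas (k - r) (by omega)).2.2.2.1
      rw [hslk r hr, div_le_iff₀ hk0] at h1
      have : Gn a b q (k - r) * k = k * Gn a b q (k - r) := by ring
      linarith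
    · intro r hr
      obtain ⟨h1, h2, h3, h4, h5⟩ := bas (k - r) (by omega)
      have h6 := c_le h (j := k - r) (by omega)
      have h7 : Gn a b q (k - r) ≤ Wn a b q (k - r) := by nlinarith
      exact mul_le_mul_of_nonneg_left h7 hk0.le
    · intro r n hrn hnk h1 h2
      obtain ⟨b1, b2, b3, b4, b5⟩ := bas (k - r) (by omega)
      have hsl := slack h (j := k - r) (by omega)
      rw [hslk r (by omega)] at hsl
      set P := Wn a b q (k - r) with hP
      set G := Gn a b q (k - r) with hGd
      rcases Nat.eq_zero_or_pos n with hn0 | hn0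
      · subst hn0
        simp only [Nat.cast_zero, zero_mul]
        positivity
      · have hn1 : (1 : ℝ) ≤ n := by exact_mod_cast hn0
        have hnr : ((n - r : ℕ) : ℝ) = (n : ℝ) - r := by rw [Nat.cast_sub hrn]
        have hx := hX (Fin (k - r)) (fun i => b i) (fun i => q i) (1 - ∑ i : Fin (k - r), a i)
          (1 / (k : ℝ)) (G / P) (n - r) univ (hcj (k - r) (by omega))
          (fun i _ => ⟨(h i (by omega)).2.1, (h i (by omega)).2.2.1, (h i (by omega)).2.2.2.1⟩)
          (fun i _ => bq_le h (by omega)) (by positivity)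
          (by
            rw [div_le_div_iff₀ hk0 b1]
            nlinarith)
          (by
            have : G / P * P = G := by field_simp
            exact this.le)
          (by rw [hsl]; positivity)
          (by
            rw [hsl, hnr, show (r : ℝ) / k + ((n : ℝ) - r) * (1 / k) = (n : ℝ) / k by ring,
              div_le_div_iff₀ hk0 b1]
            linarith)
          (by
            rw [hsl, hnr, show (r : ℝ) / k + ((n : ℝ) - r + 1) * (1 / k) = ((n : ℝ) + 1) / k by ring,
              div_le_div_iff₀ b1 hk0]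
            linarith)
        rw [hsl, hnr, show (r : ℝ) / k + ((n : ℝ) - r) * (1 / k) = (n : ℝ) / k by ring] at hx
        have hq : (1 / (k : ℝ)) / (G / P) = P / (k * G) := by
          field_simp
        rw [hq] at hx
        have h3 := mul_le_mul_of_nonneg_left hx hk0.le
        have h4 : (k : ℝ) * ((n : ℝ) / k * (1 - P / (k * G)) ^ (n - r)) =
            n * (1 - P / (k * G)) ^ (n - r) := by
          field_simp
        rw [h4] at h3
        exact h3

end Pool.Agent.W834.K5
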